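import Pool.Agent.Helper5.MoserBlich

/-!
# Explicit two-sided bounds for Moser's function

`(n/2) log n - (n/2) log (2 π e) - log n ≤ log f(n) ≤
  (n/2) log n - (n/2) log (π e) + 13 n^(2/3) (log n)^(1/3)`.
-/

open Real

namespace Pool.Agent.Results.MP_08c4cb_co.ExplicitBounds

open Pool.Agent.Helper5.Moser

theorem log_Delta_upper (n : ℕ) (hn : 2 ≤ n) :
    log (Delta n) ≤ log n - n / 2 * log 2 + 1 := by
  have hn' : (2 : ℝ) ≤ n := by exact_mod_cast hn
  have hn0 : (0 : ℝ) < n := by linarith
  have hn1 : (0 : ℝ) < (n : ℝ) - 1 := by linarith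
  set r : ℝ := √(((n : ℝ) - 1) / (2 * n)) with hr
  have hrpos : 0 < r := Real.sqrt_pos.2 (by positivity)
  have hr2 : r ^ 2 = ((n : ℝ) - 1) / (2 * n) := Real.sq_sqrt (by positivity)
  have hr3 : 2 * r ^ 2 = 1 - 1 / n := by
    rw [hr2]; field_simp
  have h1 := blichfeldt_Delta (n := n) r hrpos (by
    rw [hr3]
    have : 0 ≤ 1 / (n : ℝ) := by positivity
    linarith)
  have h2 : 1 - 2 * r ^ 2 = 1 / n := by rw [hr3]; ring
  rw [h2] at h1
  have h3 := Real.log_le_log (mul_pos (Delta_pos n) (by positivity)) h1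
  rw [Real.log_one, Real.log_mul (Delta_pos n).ne' (by positivity),
    Real.log_mul (by positivity) (by positivity), Real.log_pow, one_div, Real.log_inv] at h3
  have h4 : 2 * log (2 * r) = log 2 + log (((n : ℝ) - 1) / n) := by
    have : 2 * log (2 * r) = log ((2 * r) ^ 2) := by rw [Real.log_pow]; norm_num
    rw [this, ← Real.log_mul (by norm_num) (by positivity)]
    congr 1
    rw [mul_pow, hr2]
    field_simp
  have h5 : -(1 / ((n : ℝ) - 1)) ≤ log (((n : ℝ) - 1) / n) := by
    have := Real.one_sub_inv_le_log_of_pos (x := ((n : ℝ) - 1) / n) (by positivity)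
    refine le_trans (le_of_eq ?_) this
    field_simp
    ring
  have h6 : (n : ℝ) / 2 * (1 / ((n : ℝ) - 1)) ≤ 1 := by
    rw [mul_one_div, div_le_one hn1]
    linarith
  have h7 : (n : ℝ) * log (2 * r) = n / 2 * log 2 + n / 2 * log (((n : ℝ) - 1) / n) := by
    have : (n : ℝ) * log (2 * r) = n / 2 * (2 * log (2 * r)) := by ring
    rw [this, h4]; ring
  have h8 := mul_le_mul_of_nonneg_left h5 (by positivity : (0 : ℝ) ≤ (n : ℝ) / 2)
  linarith

theorem result (n : ℕ) (hn : 2 ≤ n) :
    (n : ℝ) / 2 * Real.log n - (n : ℝ) / 2 * Real.log (2 * π * Real.exp 1) - Real.log n ≤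
      Real.log (moser n) ∧
    Real.log (moser n) ≤
      (n : ℝ) / 2 * Real.log n - (n : ℝ) / 2 * Real.log (π * Real.exp 1)
        + 13 * ((n : ℝ) ^ (2 / 3 : ℝ) * Real.log n ^ (1 / 3 : ℝ)) := by
  have hG := log_Gamma_ge n hn
  have hv := log_v n (by omega)
  have hg := greedy (n := n)
  have h1 : (0 : ℝ) < moser n := by exact_mod_cast one_le_moser n
  have hm := (abs_le.1 (main n hn)).2
  have hD := log_Delta_upper n hn
  have he := log_le_err n hn
  have h9 := log_two_bounds n hn
  have h7 : log (2 * exp 1) = log 2 + 1 := by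
    rw [Real.log_mul (by norm_num) (exp_pos _).ne', Real.log_exp]
  have h8 : log (π * exp 1 / 2) = log π + 1 - log 2 := by
    rw [Real.log_div (by positivity) (by norm_num), Real.log_mul Real.pi_pos.ne' (exp_pos _).ne',
      Real.log_exp]
  have h10 : log (2 * π * exp 1) = log 2 + log π + 1 := by
    rw [Real.log_mul (by positivity) (exp_pos _).ne', Real.log_mul (by norm_num) Real.pi_pos.ne',
      Real.log_exp]
  have h11 : log (π * exp 1) = log π + 1 := by
    rw [Real.log_mul Real.pi_pos.ne' (exp_pos _).ne', Real.log_exp]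
  constructor
  · have h2 := Real.log_le_log one_pos hg
    rw [Real.log_one, Real.log_mul h1.ne' (by have := v_toReal_pos n; positivity),
      Real.log_mul (v_toReal_pos n).ne' (by positivity), Real.log_pow, hv] at h2
    rw [h7] at hG
    rw [h10]
    linarith
  · rw [h8] at hm
    rw [h11]
    linarith

end Pool.Agent.Results.MP_08c4cb_co.ExplicitBounds
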