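import Pool.Agent.Helper14.Moser5.Upper

/-!
# Moser's problem in dimension five: `f(5) = 34`

The largest number of points of the unit cube `[0,1]^5` at mutual distances at least one is `34`.
The upper bound is proved by a fractional covering of the cube by sets of diameter less than one.
-/

namespace Pool.Agent.Results.MP_08c4cb_co.FiveCubeThirtyFour

/-- twice the coordinates of the 34 points: the 32 vertices and two centres of opposite facets -/
def pts (a : Fin 34) (i : Fin 5) : ℤ :=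
  if a.val < 32 then 2 * ((a.val / 2 ^ i.val % 2 : ℕ) : ℤ)
  else if i.val = 4 then 2 * ((a.val : ℤ) - 32) else 1

theorem pts_range : ∀ a i, 0 ≤ pts a i ∧ pts a i ≤ 2 := by decide +kernel

theorem pts_dist : ∀ a b, a ≠ b → 4 ≤ (pts a 0 - pts b 0) ^ 2 + (pts a 1 - pts b 1) ^ 2 +
    (pts a 2 - pts b 2) ^ 2 + (pts a 3 - pts b 3) ^ 2 + (pts a 4 - pts b 4) ^ 2 := by
  decide +kernel

theorem one_le_dist_iff (x y : EuclideanSpace ℝ (Fin 5)) :
    1 ≤ dist x y ↔ 1 ≤ ∑ i, (x i - y i) ^ 2 := by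
  rw [EuclideanSpace.dist_eq, Real.le_sqrt' one_pos, one_pow]
  simp only [Real.dist_eq, sq_abs]

theorem result : IsGreatest {N : ℕ | ∃ x : Fin N → EuclideanSpace ℝ (Fin 5),
    (∀ a i, 0 ≤ x a i ∧ x a i ≤ 1) ∧ ∀ a b, a ≠ b → 1 ≤ dist (x a) (x b)} 34 := by
  constructor
  · refine ⟨fun a => WithLp.toLp 2 fun i => (pts a i : ℝ) / 2, ?_, ?_⟩
    · intro a i
      obtain ⟨h1, h2⟩ := pts_range a i
      have h1' : (0 : ℝ) ≤ pts a i := by exact_mod_cast h1
      have h2' : (pts a i : ℝ) ≤ 2 := by exact_mod_cast h2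
      show 0 ≤ (pts a i : ℝ) / 2 ∧ (pts a i : ℝ) / 2 ≤ 1
      constructor <;> linarith
    · intro a b hab
      rw [one_le_dist_iff, Fin.sum_univ_five]
      have h := pts_dist a b hab
      have h' : (4 : ℝ) ≤ ((pts a 0 : ℝ) - pts b 0) ^ 2 + ((pts a 1 : ℝ) - pts b 1) ^ 2 +
          ((pts a 2 : ℝ) - pts b 2) ^ 2 + ((pts a 3 : ℝ) - pts b 3) ^ 2 +
          ((pts a 4 : ℝ) - pts b 4) ^ 2 := by exact_mod_cast h
      show (1 : ℝ) ≤ ((pts a 0 : ℝ) / 2 - (pts b 0 : ℝ) / 2) ^ 2 +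
        ((pts a 1 : ℝ) / 2 - (pts b 1 : ℝ) / 2) ^ 2 +
        ((pts a 2 : ℝ) / 2 - (pts b 2 : ℝ) / 2) ^ 2 +
        ((pts a 3 : ℝ) / 2 - (pts b 3 : ℝ) / 2) ^ 2 +
        ((pts a 4 : ℝ) / 2 - (pts b 4 : ℝ) / 2) ^ 2
      linarith
  · rintro N ⟨x, hx, hd⟩
    exact Pool.Agent.Helper14.Moser5.upper (fun a i => x a i) (fun a i => hx a i)
      fun a b hab => (one_le_dist_iff _ _).1 (hd a b hab)

end Pool.Agent.Results.MP_08c4cb_co.FiveCubeThirtyFour
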