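import Pool.Agent.Helper5.Kept.PackingDensity

/-!
# Moser's function `f(n)` and the sphere packing density

`moser n` is the largest number of points of the unit cube `[0,1]^n` at mutual distances at least
one and `Delta n` is the sphere packing density of `ℝ^n`.  We show that

`log f(n) = (n/2) log n - (n/2) log (π e / 2) + log Δ_n + O(n^(2/3) (log n)^(1/3))`.
-/

namespace Pool.Agent.Results.MP_08c4cb_co.PackingDensity

open MeasureTheory Metric Set Filter
open scoped ENNReal

section

variable {X : Type} [MetricSpace X]

/-- A set of points all of whose pairwise distances are at least `1`. -/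
def Sep (S : Set X) : Prop := ∀ x ∈ S, ∀ y ∈ S, x ≠ y → 1 ≤ dist x y

/-- The set of all `N` such that `K` contains `N` points at mutual distances at least `1`. -/
def sizes (K : Set X) : Set ℕ :=
  {N | ∃ s : Finset X, (∀ x ∈ s, x ∈ K) ∧ Sep (s : Set X) ∧ s.card = N}

/-- Upper density of the family of balls of radius `1/2` centred at the points of `S`; `o` is the
origin. -/
noncomputable def dens [MeasureSpace X] (o : X) (S : Set X) : ℝ≥0∞ :=
  limsup (fun R : ℝ => volume ((⋃ x ∈ S, ball x (1 / 2)) ∩ ball o R) / volume (ball o R)) atTop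

/-- The packing density: the supremum of the upper densities of all packings by balls of radius
`1/2`. -/
noncomputable def density [MeasureSpace X] (o : X) : ℝ :=
  (⨆ (S : Set X) (_ : Sep S), dens o S).toReal

end

/-- `n`-dimensional Euclidean space -/
abbrev E (n : ℕ) := EuclideanSpace ℝ (Fin n)

/-- The closed unit cube `[0,1]^n`. -/
def cube (n : ℕ) : Set (E n) := {x | ∀ i, 0 ≤ x i ∧ x i ≤ 1}

/-- The set of all `N` such that the unit cube contains `N` points at mutual distances at least `1`.
-/
def cubeSizes (n : ℕ) : Set ℕ := sizes (cube n)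

/-- Moser's function: the largest number of points of `[0,1]^n` at mutual distances at least `1`. -/
noncomputable def moser (n : ℕ) : ℕ := sSup (cubeSizes n)

/-- The sphere packing density `Δ_n` of `ℝ^n`. -/
noncomputable def Delta (n : ℕ) : ℝ := density (0 : E n)

open Real

theorem result :
    (∀ n : ℕ, IsGreatest (cubeSizes n) (moser n) ∧ 0 < Delta n) ∧
    ∀ n : ℕ, 2 ≤ n →
      -Real.log n ≤ Real.log (moser n) -
          ((n : ℝ) / 2 * Real.log n - (n : ℝ) / 2 * Real.log (π * Real.exp 1 / 2)
            + Real.log (Delta n)) ∧
      Real.log (moser n) -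
          ((n : ℝ) / 2 * Real.log n - (n : ℝ) / 2 * Real.log (π * Real.exp 1 / 2)
            + Real.log (Delta n)) ≤
        10 * ((n : ℝ) ^ (2 / 3 : ℝ) * Real.log n ^ (1 / 3 : ℝ)) :=
  Pool.Agent.Helper5.Kept.PackingDensity.result

end Pool.Agent.Results.MP_08c4cb_co.PackingDensity
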